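import Mathlib
import Pool.Agent.H13.MY1

namespace Pool.Agent.Results.MP_1775bc_an.Stable

open Set Filter Topology MeasureTheory intervalIntegral Pool.Agent.H13.MY

variable {E : Type} [NormedAddCommGroup E] [NormedSpace ℝ E]

/-- `x` solves `x' = f(t, x)` on `[t₀, ∞)` -/
def IsSolution (f : ℝ → E → E) (t₀ : ℝ) (x : ℝ → E) : Prop :=
  ∀ t ∈ Ici t₀, HasDerivWithinAt x (f t (x t)) (Ici t₀) t

/-- `y` solves the linear system `y' = A(t) y` on `[s, t]` -/
def IsLinSolution (A : ℝ → E →L[ℝ] E) (s t : ℝ) (y : ℝ → E) : Prop :=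
  ∀ τ ∈ Icc s t, HasDerivWithinAt y (A τ (y τ)) (Icc s t) τ

/-- nonuniform exponential dichotomy on `[0, ∞)` with `P ≡ I`:
`‖T(t,s)‖ ≤ K exp(-γ(t-s) + ε s)` for `t ≥ s ≥ 0`, written on solutions -/
def NonunifContraction (A : ℝ → E →L[ℝ] E) : Prop :=
  ∃ K γ ε : ℝ, 1 ≤ K ∧ 0 ≤ ε ∧ ε < γ ∧ ∀ s t : ℝ, 0 ≤ s → s ≤ t → ∀ y : ℝ → E,
    IsLinSolution A s t y → ‖y t‖ ≤ K * Real.exp (-γ * (t - s) + ε * s) * ‖y s‖

/-- (G1): `f` continuous on `[0, ∞) × E`, with continuous Jacobian `J` in `x` -/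
def G1 (f : ℝ → E → E) (J : ℝ → E → E →L[ℝ] E) : Prop :=
  ContinuousOn (Function.uncurry f) (Ici 0 ×ˢ univ) ∧ ContinuousOn (Function.uncurry J) (Ici 0 ×ˢ univ) ∧
    ∀ t ∈ Ici (0 : ℝ), ∀ x, HasFDerivAt (f t) (J t x) x

/-- (G3), required only for continuous `ω` -/
def G3 (J : ℝ → E → E →L[ℝ] E) : Prop :=
  ∀ ω : ℝ → E, ContinuousOn ω (Ici 0) → NonunifContraction fun t => J t (ω t)

/-- global nonuniform asymptotic stability of the origin -/
def GNUAS (f : ℝ → E → E) : Prop :=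
  ∀ t₀ ∈ Ici (0 : ℝ), (∀ η > 0, ∃ δ > 0, ∀ x, IsSolution f t₀ x → ‖x t₀‖ < δ → ∀ t ∈ Ici t₀, ‖x t‖ < η) ∧
    ∀ x, IsSolution f t₀ x → Tendsto x atTop (𝓝 0)

structure Core (f : ℝ → E → E) (J : ℝ → E → E →L[ℝ] E) : Prop where
  hf : Continuous (Function.uncurry f)
  hJ : Continuous (Function.uncurry J)
  hd : ∀ t x, HasFDerivAt (f t) (J t x) x
  h0 : ∀ t, f t 0 = 0
  H : ∀ ω : ℝ → E, Continuous ω → ∃ K γ ε : ℝ, 0 ≤ K ∧ 0 ≤ ε ∧ 0 < γ ∧ ∀ s t : ℝ, 0 ≤ s → s ≤ t →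
    ∀ y, Sol (fun τ => J τ (ω τ)) s t y → ‖y t‖ ≤ K * Real.exp (-γ * (t - s) + ε * s) * ‖y s‖

theorem Sol_congr {A B : ℝ → E →L[ℝ] E} {a b : ℝ} {y : ℝ → E} (h : Sol A a b y)
    (e : ∀ t ∈ Icc a b, B t = A t) : Sol B a b y := fun t ht => by rw [e t ht]; exact h t ht

variable [FiniteDimensional ℝ E] {f : ℝ → E → E} {J : ℝ → E → E →L[ℝ] E}

theorem bound (C : Core f J) (b R : ℝ) : ∃ L > 0, ∀ t ∈ Icc 0 b, ∀ z, ‖z‖ ≤ R → ‖J t z‖ ≤ L := by
  have := FiniteDimensional.proper_real E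
  obtain ⟨L, hL⟩ := ((isCompact_Icc (a := 0) (b := b)).prod
    (isCompact_closedBall (0 : E) R)).exists_bound_of_continuousOn C.hJ.continuousOn
  exact ⟨|L| + 1, by positivity, fun t ht z hz => by
    have := hL (t, z) ⟨ht, by simpa using hz⟩
    exact this.trans (by linarith [le_abs_self L])⟩

theorem cJ (C : Core f J) {ω : ℝ → E} (hω : Continuous ω) : Continuous fun t => J t (ω t) :=
  C.hJ.comp (continuous_id.prodMk hω)

theorem relax (C : Core f J) {x : ℝ → E} (hx : Continuous x) {a b L ε : ℝ} (hL : 0 < L) (hε : 0 < ε)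
    (hs : ∀ t ∈ Icc a b, HasDerivWithinAt x (f t (x t)) (Icc a b) t)
    (hb : ∀ t ∈ Icc a b, ∀ s ∈ Icc (0 : ℝ) 1, ‖J t (s • x t)‖ ≤ L) :
    ∃ N : ℕ, ∀ y, Sol (fun t => J t (c (2 * N * t) • x t)) a b y → ∀ p ∈ Icc a b, ∀ t ∈ Icc a b,
      ‖y t - x t‖ ≤ ε + (‖y p - x p‖ + 2 * ε) * Real.exp (L * (b - a)) := by
  have := FiniteDimensional.complete ℝ E
  let g : ℝ × ℝ → E := fun q => J q.1 (q.2 • x q.1) (x q.1) - f q.1 (x q.1)
  have hg : Continuous g := by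
    refine Continuous.sub (Continuous.clm_apply ?_ (by fun_prop)) ?_
    · exact C.hJ.comp (f := fun q : ℝ × ℝ => (q.1, q.2 • x q.1)) (by fun_prop)
    · exact C.hf.comp (f := fun q : ℝ × ℝ => (q.1, x q.1)) (by fun_prop)
  obtain ⟨N, hN⟩ := averaging hg (a := a) (b := b) (fun t _ => by
    have h1 : Continuous fun s : ℝ => J t (s • x t) (x t) :=
      Continuous.clm_apply (C.hJ.comp (f := fun s : ℝ => (t, s • x t)) (by fun_prop)) continuous_const
    simp only [g]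
    rw [integral_sub (h1.intervalIntegrable _ _) (by simp),
      integral_eq_sub_of_hasDerivAt (f := fun s : ℝ => f t (s • x t)) (fun s _ => by
        simpa [Function.comp_def] using (C.hd t (s • x t)).comp_hasDerivAt s ((hasDerivAt_id s).smul_const (x t)))
        (h1.intervalIntegrable _ _)]
    simp [C.h0]) hε
  refine ⟨N, fun y hy p hp t ht => ?_⟩
  have hG : Continuous fun τ => g (τ, c (2 * N * τ)) :=
    hg.comp (continuous_id.prodMk (c_cont.comp (by fun_prop)))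
  let R : ℝ → E := fun t => ∫ τ in a..t, g (τ, c (2 * N * τ))
  have key := gron (w := fun t => y t - x t - R t)
    (w' := fun t => J t (c (2 * N * t) • x t) (y t - x t)) hL hε.le (fun t ht => by
      refine (((hy t ht).fun_sub (hs t ht)).fun_sub
        (hG.integral_hasStrictDerivAt a t).hasDerivAt.hasDerivWithinAt).congr_deriv ?_
      simp only [g, map_sub]
      abel) (fun t ht => by
      refine (ContinuousLinearMap.le_opNorm _ _).trans ?_
      rw [← mul_add]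
      refine mul_le_mul (hb t ht _ (c_mem _)) ?_ (norm_nonneg _) hL.le
      have := norm_add_le (y t - x t - R t) (R t)
      rw [sub_add_cancel] at this
      linarith [hN t ht]) hp ht
  have h1 := norm_add_le (y t - x t - R t) (R t)
  rw [sub_add_cancel] at h1
  have h2 := norm_sub_le (y p - x p) (R p)
  have h3 : (‖y p - x p - R p‖ + ε) * Real.exp (L * (b - a)) ≤
      (‖y p - x p‖ + 2 * ε) * Real.exp (L * (b - a)) :=
    mul_le_mul_of_nonneg_right (by linarith [hN p hp]) (Real.exp_pos _).le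
  linarith [hN t ht]

theorem smul_le {s : ℝ} (hs : s ∈ Icc (0 : ℝ) 1) (v : E) : ‖s • v‖ ≤ ‖v‖ := by
  rw [norm_smul, Real.norm_eq_abs, abs_of_nonneg hs.1]
  exact mul_le_of_le_one_left (norm_nonneg _) hs.2

theorem attract (C : Core f J) {x : ℝ → E} (hx : Continuous x) (hs : IsSolution f 0 x) :
    Tendsto x atTop (𝓝 0) := by
  have := FiniteDimensional.complete ℝ E
  have step : ∀ m : ℕ, ∃ L > 0, (∀ t ∈ Icc (0 : ℝ) (m + 1), ∀ s ∈ Icc (0 : ℝ) 1, ‖J t (s • x t)‖ ≤ L) ∧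
      ∃ N : ℕ, ∀ y, Sol (fun t => J t (c (2 * N * t) • x t)) m (m + 1) y → y (m + 1) = x (m + 1) →
        ∀ t ∈ Icc (m : ℝ) (m + 1), ‖y t - x t‖ * Real.exp (L * m) ≤ (1 / 2) ^ m := by
    intro m
    obtain ⟨R, hR⟩ := (isCompact_Icc (a := (0 : ℝ)) (b := m + 1)).exists_bound_of_continuousOn
      hx.continuousOn
    obtain ⟨L, hL, hL'⟩ := bound C (m + 1) R
    have hb : ∀ t ∈ Icc (0 : ℝ) (m + 1), ∀ s ∈ Icc (0 : ℝ) 1, ‖J t (s • x t)‖ ≤ L :=
      fun t ht s hs => hL' t ht _ ((smul_le hs _).trans (hR t ht))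
    have hsub : Icc (m : ℝ) (m + 1) ⊆ Icc 0 (m + 1) := Icc_subset_Icc (Nat.cast_nonneg m) le_rfl
    obtain ⟨N, hN⟩ := relax C hx (a := m) (b := m + 1) hL
      (ε := (1 / 2) ^ m / ((1 + 2 * Real.exp L) * Real.exp (L * m))) (by positivity)
      (fun t ht => (hs t (hsub ht).1).mono fun u hu => (hsub hu).1) (fun t ht => hb t (hsub ht))
    refine ⟨L, hL, hb, N, fun y hy e t ht => ?_⟩
    have := hN y hy (m + 1) ⟨by linarith, le_rfl⟩ t ht
    rw [e, sub_self, norm_zero, zero_add, add_sub_cancel_left, mul_one] at this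
    refine (mul_le_mul_of_nonneg_right this (Real.exp_pos _).le).trans (le_of_eq ?_)
    field_simp
  choose L hL hb N hN using step
  obtain ⟨ω, hω, hω'⟩ := glue (W := fun m t => c (2 * N m * t) • x t)
    (fun m => (c_cont.comp (by fun_prop)).smul hx) (fun m n => by simp only [c_zero, zero_smul])
  have hA : ∀ m : ℕ, ∀ t ∈ Icc (0 : ℝ) (m + 1), ‖J t (ω t)‖ ≤ L m := by
    intro m t ht
    rw [hω' ⌊t⌋₊ t ⟨Nat.floor_le ht.1, (Nat.lt_floor_add_one _).le⟩]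
    exact hb m t ht _ (c_mem _)
  have near : ∀ m : ℕ, ∀ y, Sol (fun t => J t (ω t)) 0 (m + 1) y → y (m + 1) = x (m + 1) →
      ∀ t ∈ Icc (m : ℝ) (m + 1), ‖y t - x t‖ * Real.exp (L m * m) ≤ (1 / 2) ^ m := fun m y hy =>
    hN m y (Sol_congr (hy.mono (Nat.cast_nonneg m) le_rfl) fun t ht => by rw [hω' m t ht])
  have ind : ∀ m : ℕ, ∀ y, Sol (fun t => J t (ω t)) 0 m y → y m = x m →
      ‖y 0‖ ≤ ‖x 0‖ + 2 - 2 * (1 / 2) ^ m := by
    intro m
    induction m with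
    | zero => intro y _ e; simp only [Nat.cast_zero] at e; simp [e]
    | succ m ih =>
      intro y hy e
      push_cast at hy e
      have hm : (0 : ℝ) ≤ m := Nat.cast_nonneg m
      obtain ⟨z, hz, ez⟩ := exists_sol (cJ C hω) (a := 0) (b := m) ⟨hm, le_rfl⟩ (x m)
      have h1 := near m y hy e m ⟨le_rfl, by linarith⟩
      have h2 : Sol (fun t => J t (ω t)) 0 m fun t => y t - z t := fun t ht => by
        simpa using ((hy.mono le_rfl (by linarith)) t ht).fun_sub (hz t ht)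
      have h3 := h2.le (hL m) (fun t ht => hA m t ⟨ht.1, by linarith [ht.2]⟩) ⟨hm, le_rfl⟩ ⟨le_rfl, hm⟩
      simp only [ez, sub_zero] at h3
      have h4 := ih z hz ez
      have h5 := norm_add_le (y 0 - z 0) (z 0)
      rw [sub_add_cancel] at h5
      rw [pow_succ]
      linarith
  obtain ⟨K, γ, ε, hK, -, hγ, H⟩ := C.H ω hω
  have fin : ∀ t, 0 ≤ t → ‖x t‖ ≤ K * (‖x 0‖ + 2) * Real.exp (-γ * t) + (1 / 2) ^ ⌊t⌋₊ := by
    intro t ht
    set m := ⌊t⌋₊
    have hm : (0 : ℝ) ≤ m := Nat.cast_nonneg m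
    have ht' : t ∈ Icc (m : ℝ) (m + 1) := ⟨Nat.floor_le ht, (Nat.lt_floor_add_one _).le⟩
    obtain ⟨y, hy, e⟩ := exists_sol (cJ C hω) (a := 0) (b := m + 1) ⟨by linarith, le_rfl⟩ (x (m + 1))
    have h1 := near m y hy e t ht'
    have h2 := ind (m + 1) y (by exact_mod_cast hy) (by exact_mod_cast e)
    have h3 := H 0 t le_rfl ht y (hy.mono le_rfl ht'.2)
    simp only [sub_zero, mul_zero, add_zero] at h3
    have h4 : ‖y t - x t‖ ≤ ‖y t - x t‖ * Real.exp (L m * m) :=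
      le_mul_of_one_le_right (norm_nonneg _) (Real.one_le_exp (mul_nonneg (hL m).le hm))
    have h5 := norm_sub_le (y t) (y t - x t)
    rw [sub_sub_cancel] at h5
    have h6 : K * Real.exp (-γ * t) * ‖y 0‖ ≤ K * Real.exp (-γ * t) * (‖x 0‖ + 2) :=
      mul_le_mul_of_nonneg_left (by linarith [pow_pos (show (0 : ℝ) < 1 / 2 by norm_num) (m + 1)])
        (by positivity)
    linarith
  rw [tendsto_zero_iff_norm_tendsto_zero]
  have l1 : Tendsto (fun t : ℝ => Real.exp (-γ * t)) atTop (𝓝 0) :=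
    Real.tendsto_exp_atBot.comp (tendsto_id.const_mul_atTop_of_neg (by linarith))
  have l2 : Tendsto (fun t : ℝ => (1 / 2 : ℝ) ^ ⌊t⌋₊) atTop (𝓝 0) :=
    (tendsto_pow_atTop_nhds_zero_of_lt_one (by norm_num) (by norm_num)).comp tendsto_nat_floor_atTop
  have := (l1.const_mul (K * (‖x 0‖ + 2))).add l2
  simp only [mul_zero, add_zero] at this
  exact squeeze_zero' (Eventually.of_forall fun _ => norm_nonneg _)
    ((eventually_ge_atTop 0).mono fin) this

theorem unif (C : Core f J) (η : ℝ) : ∃ M > 0, ∀ ω : ℝ → E, Continuous ω → (∀ t, ‖ω t‖ ≤ η) →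
    (∀ n : ℕ, ω n = 0) → ∀ t, 0 ≤ t → ∀ y, Sol (fun τ => J τ (ω τ)) 0 t y → ‖y t‖ ≤ M * ‖y 0‖ := by
  by_contra hc
  push Not at hc
  have step : ∀ (m : ℕ) (M : ℝ), ∃ (ω : ℝ → E) (t : ℝ) (y : ℝ → E), Continuous ω ∧ (∀ n : ℕ, ω n = 0) ∧
      (m : ℝ) ≤ t ∧ Sol (fun τ => J τ (ω τ)) m t y ∧ M * ‖y m‖ < ‖y t‖ := by
    intro m M
    have hm : (0 : ℝ) ≤ m := Nat.cast_nonneg m
    obtain ⟨L, hL, hL'⟩ := bound C m η
    obtain ⟨ω, h1, h2, h3, t, ht, y, hy, hlt⟩ := hc ((|M| + 1) * Real.exp (L * m)) (by positivity)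
    have hmt : (m : ℝ) ≤ t := by
      by_contra h
      push Not at h
      have := hy.le hL (fun s hs => hL' s ⟨hs.1, by linarith [hs.2]⟩ _ (h2 s)) ⟨le_rfl, ht⟩ ⟨ht, le_rfl⟩
      have h4 : Real.exp (L * (t - 0)) ≤ Real.exp (L * m) :=
        Real.exp_le_exp.2 (mul_le_mul_of_nonneg_left (by linarith) hL.le)
      have h5 : 0 ≤ |M| * Real.exp (L * m) * ‖y 0‖ := by positivity
      nlinarith [norm_nonneg (y 0)]
    refine ⟨ω, t, y, h1, h3, hmt, hy.mono hm le_rfl, ?_⟩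
    have := (hy.mono le_rfl hmt).le hL (fun s hs => hL' s hs _ (h2 s)) ⟨le_rfl, hm⟩ ⟨hm, le_rfl⟩
    rw [sub_zero] at this
    have h5 : M * ‖y m‖ ≤ |M| * ‖y m‖ := mul_le_mul_of_nonneg_right (le_abs_self _) (norm_nonneg _)
    have h6 : |M| * ‖y m‖ ≤ |M| * (‖y 0‖ * Real.exp (L * m)) := mul_le_mul_of_nonneg_left this (abs_nonneg _)
    have h7 : 0 ≤ Real.exp (L * m) * ‖y 0‖ := by positivity
    nlinarith
  choose W T Y w1 w2 w3 w4 w5 using fun m : ℕ => step m (Real.exp (m * m + m))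
  obtain ⟨s, s1⟩ : ∃ s : ℕ → ℕ, ∀ j, T (s j) < (s (j + 1) : ℝ) := by
    refine ⟨fun j => Nat.rec 0 (fun _ m => ⌊T m⌋₊ + 1) j, fun j => ?_⟩
    simp only [Nat.cast_add, Nat.cast_one]
    exact Nat.lt_floor_add_one _
  have s2 : StrictMono s := strictMono_nat_of_lt_succ fun j => by
    exact_mod_cast (w3 (s j)).trans_lt (s1 j)
  let idx : ℕ → ℕ := fun m => @Nat.findGreatest (fun j => s j ≤ m) (fun _ => Nat.decLe _ _) m
  have hidx : ∀ j m, s j ≤ m → m < s (j + 1) → idx m = j := by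
    intro j m h1 h2
    refine (@Nat.findGreatest_eq_iff _ _ (fun j => s j ≤ m) (fun _ => Nat.decLe _ _)).2 ⟨(s2.id_le j).trans h1, fun _ => h1, fun n hn _ h => ?_⟩
    exact absurd ((s2.monotone hn).trans h) (not_le.2 h2)
  obtain ⟨ω, hω, hω'⟩ := glue (W := fun m => W (s (idx m))) (fun m => w1 _) (fun m n => w2 _ n)
  obtain ⟨K, γ, ε, hK, hε, hγ, H⟩ := C.H ω hω
  obtain ⟨j, hj⟩ := exists_nat_gt (max K ε)
  have hsj : (j : ℝ) ≤ ((s j : ℕ) : ℝ) := by exact_mod_cast (s2.id_le j : j ≤ s j)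
  have h0 : (0 : ℝ) ≤ ((s j : ℕ) : ℝ) := Nat.cast_nonneg _
  have := H ((s j : ℕ) : ℝ) (T (s j)) h0 (w3 _) (Y (s j)) (Sol_congr (w4 _) fun t ht => by
    have ht0 : 0 ≤ t := h0.trans ht.1
    rw [hω' ⌊t⌋₊ t ⟨Nat.floor_le ht0, (Nat.lt_floor_add_one _).le⟩,
      hidx j ⌊t⌋₊ (Nat.le_floor ht.1) ((Nat.floor_lt ht0).2 (ht.2.trans_lt (s1 j)))])
  refine absurd ((w5 _).trans_le this) (not_lt.2 (mul_le_mul_of_nonneg_right ?_ (norm_nonneg _)))
  rw [Real.exp_add (((s j : ℕ) : ℝ) * ((s j : ℕ) : ℝ)), mul_comm]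
  refine mul_le_mul (Real.exp_le_exp.2 ?_) ?_ hK (Real.exp_pos _).le
  · nlinarith [le_max_right K ε, w3 (s j)]
  · linarith [le_max_left K ε, Real.add_one_le_exp ((s j : ℕ) : ℝ)]

theorem stable (C : Core f J) {η : ℝ} (hη : 0 < η) : ∃ δ > 0, ∀ x, Continuous x → IsSolution f 0 x →
    ‖x 0‖ < δ → ∀ t, 0 ≤ t → ‖x t‖ < η := by
  have := FiniteDimensional.complete ℝ E
  obtain ⟨M, hM, H⟩ := unif C η
  refine ⟨η / (2 * (M + 1)), by positivity, fun x hx hs h0 => ?_⟩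
  rw [lt_div_iff₀ (by positivity)] at h0
  by_contra hc
  push Not at hc
  have hcl : IsClosed {t : ℝ | 0 ≤ t ∧ η ≤ ‖x t‖} :=
    (isClosed_le continuous_const continuous_id).inter (isClosed_le continuous_const hx.norm)
  obtain ⟨t, ⟨ht0, ht⟩, hmin⟩ : ∃ t, IsLeast {t : ℝ | 0 ≤ t ∧ η ≤ ‖x t‖} t :=
    ⟨_, hcl.isLeast_csInf hc ⟨0, fun _ h => h.1⟩⟩
  have ht1 : 0 < t := lt_of_le_of_ne ht0 fun e => by
    rw [← e] at ht; nlinarith [norm_nonneg (x 0)]
  have hle : ∀ s ∈ Icc 0 t, ‖x s‖ ≤ η := by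
    rw [← closure_Ico ht1.ne]
    refine (isClosed_le hx.norm continuous_const).closure_subset_iff.2 fun s hs => ?_
    by_contra h
    exact absurd (hmin ⟨hs.1, (not_le.1 h).le⟩) (not_le.2 hs.2)
  obtain ⟨L, hL, hL'⟩ := bound C t η
  obtain ⟨N, hN⟩ := relax C hx (a := 0) (b := t) hL
    (ε := η / (4 * (1 + 2 * Real.exp (L * (t - 0))))) (by positivity)
    (fun u hu => (hs u hu.1).mono fun v hv => hv.1)
    (fun u hu s hs => hL' u hu _ ((smul_le hs _).trans (hle u hu)))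
  let ω : ℝ → E := fun u => c (2 * N * u) • x (max 0 (min u t))
  have hω : Continuous ω := (c_cont.comp (by fun_prop)).smul (hx.comp (by fun_prop))
  obtain ⟨y, hy, e⟩ := exists_sol (cJ C hω) (a := 0) (b := t) ⟨le_rfl, ht0⟩ (x 0)
  have h1 := H ω hω (fun u => (smul_le (c_mem _) _).trans
    (hle _ ⟨le_max_left _ _, max_le ht0 (min_le_right _ _)⟩))
    (fun n => by simp only [ω, c_zero, zero_smul]) t ht0 y hy
  have h2 := hN y (Sol_congr hy fun u hu => by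
    simp only [ω, min_eq_left hu.2, max_eq_right hu.1]) 0 ⟨le_rfl, ht0⟩ t ⟨ht0, le_rfl⟩
  rw [e] at h1
  rw [e, sub_self, norm_zero, zero_add] at h2
  have h3 : η / (4 * (1 + 2 * Real.exp (L * (t - 0)))) +
      2 * (η / (4 * (1 + 2 * Real.exp (L * (t - 0))))) * Real.exp (L * (t - 0)) = η / 4 := by
    field_simp
  have h5 := norm_sub_le (y t) (y t - x t)
  rw [sub_sub_cancel] at h5
  nlinarith [norm_nonneg (x 0)]

theorem result (E : Type) [NormedAddCommGroup E] [NormedSpace ℝ E] [FiniteDimensional ℝ E]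
    (f : ℝ → E → E) (J : ℝ → E → E →L[ℝ] E) (h1 : G1 f J) (h2 : ∀ t ∈ Ici (0 : ℝ), f t 0 = 0)
    (h3 : G3 J) : GNUAS f := by
  intro t₀ ht₀
  have ht₀' : 0 ≤ t₀ := ht₀
  have hm : ∀ t : ℝ, max t 0 + t₀ ∈ Ici t₀ := fun t => by simp
  have hm0 : ∀ t : ℝ, max t 0 + t₀ ∈ Ici (0 : ℝ) := fun t => mem_Ici.2 (add_nonneg (le_max_right _ _) ht₀')
  have C : Core (fun t => f (max t 0 + t₀)) (fun t => J (max t 0 + t₀)) := by
    refine ⟨h1.1.comp_continuous (f := fun q : ℝ × E => (max q.1 0 + t₀, q.2)) (by fun_prop)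
        fun q => ⟨hm0 _, trivial⟩,
      h1.2.1.comp_continuous (f := fun q : ℝ × E => (max q.1 0 + t₀, q.2)) (by fun_prop)
        fun q => ⟨hm0 _, trivial⟩, fun t => h1.2.2 _ (hm0 t), fun t => h2 _ (hm0 t), fun ω hω => ?_⟩
    obtain ⟨K, γ, ε, a1, a2, a3, H⟩ := h3 (fun t => ω (t - t₀)) (by fun_prop)
    refine ⟨K * Real.exp (ε * t₀), γ, ε, by positivity, a2, by linarith, fun s t hs hst y hy => ?_⟩
    have := H (s + t₀) (t + t₀) (by linarith) (by linarith) (fun u => y (u - t₀)) (fun u hu => by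
      have hu' : ∀ u ∈ Icc (s + t₀) (t + t₀), u - t₀ ∈ Icc s t :=
        fun u hu => ⟨by linarith [hu.1], by linarith [hu.2]⟩
      have := (hy _ (hu' u hu)).scomp u ((hasDerivAt_id u).sub_const t₀).hasDerivWithinAt hu'
      simp only at this
      rw [max_eq_left (by linarith [hu.1]), sub_add_cancel, one_smul] at this
      exact this)
    simp only [add_sub_cancel_right] at this
    refine this.trans (le_of_eq ?_)
    rw [mul_assoc K (Real.exp (ε * t₀)), ← Real.exp_add]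
    congr 3
    ring
  have sh : ∀ x, IsSolution f t₀ x → Continuous (fun t => x (max t 0 + t₀)) ∧
      IsSolution (fun t => f (max t 0 + t₀)) 0 fun t => x (max t 0 + t₀) := by
    intro x hx
    have hc : ContinuousOn x (Ici t₀) := fun t ht => (hx t ht).continuousWithinAt
    refine ⟨hc.comp_continuous (by fun_prop) hm, fun t ht => ?_⟩
    have := (hx _ (hm t)).scomp_of_eq t (h := fun u => u + t₀) (s := Ici 0)
      ((hasDerivAt_id t).add_const t₀).hasDerivWithinAt (fun u hu => by simpa using hu)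
      (by rw [max_eq_left ht])
    rw [one_smul] at this
    exact this.congr_of_mem (fun u hu => by simp only [Function.comp, max_eq_left (mem_Ici.1 hu)]) ht
  constructor
  · intro η hη
    obtain ⟨δ, hδ, H⟩ := stable C hη
    refine ⟨δ, hδ, fun x hx h0 t ht => ?_⟩
    have := H _ (sh x hx).1 (sh x hx).2 (by simpa using h0) (t - t₀) (sub_nonneg.2 ht)
    rwa [max_eq_left (sub_nonneg.2 ht), sub_add_cancel] at this
  · intro x hx
    have := (attract C (sh x hx).1 (sh x hx).2).comp (tendsto_atTop_add_const_right _ (-t₀) tendsto_id)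
    refine this.congr' ((eventually_ge_atTop t₀).mono fun t ht => ?_)
    simp only [Function.comp, id]
    rw [max_eq_left (by linarith), neg_add_cancel_right]

end Pool.Agent.Results.MP_1775bc_an.Stable
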